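import Pool.Agent.Helper99.GL.FSpec

/-!
Swarm `GL`, part F03: tangent curves stay in the leaf, and the leaf relation is symmetric.
-/

set_option autoImplicit false

open Metric Set Filter Topology

namespace Pool.GL.H93

open Pool.GL

lemma contDiff_eval (P : MvPolynomial (Fin 2) ℂ) :
    ContDiff ℂ 1 (fun p : ℂ × ℂ => MvPolynomial.eval ![p.1, p.2] P) := by
  induction P using MvPolynomial.induction_on with
  | C a => simpa using contDiff_const
  | add p q hp hq => simpa using hp.add hq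
  | mul_X p i hp =>
    fin_cases i
    · simpa using hp.mul contDiff_fst
    · simpa using hp.mul contDiff_snd

lemma contDiff_W (F : Fld) : ContDiff ℂ 1 F.W :=
  (contDiff_eval F.P).prodMk (contDiff_eval F.Q)

lemma continuous_W (F : Fld) : Continuous F.W := (contDiff_W F).continuous

/-- local step along a curve: uniform version -/
lemma local_step (hH : S_HODE) (hU : S_UNIQ) (F : Fld) (γ : ℝ → ℂ × ℂ) (k : ℝ → ℂ) (T : ℝ)
    (hT : 0 ≤ T) (hk : ContinuousOn k (Icc 0 T))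
    (hγ : ∀ t ∈ Icc 0 T, HasDerivWithinAt γ (k t • F.W (γ t)) (Icc 0 T) t)
    (t₀ : ℝ) (ht₀ : t₀ ∈ Icc 0 T) :
    ∃ δ > 0, ∀ t₁ ∈ Icc 0 T, ∀ t₂ ∈ Icc 0 T, |t₁ - t₀| < δ → |t₂ - t₀| < δ → t₁ ≤ t₂ →
      F.Step (γ t₁) (γ t₂) := by
  obtain ⟨r, hr, ε, hε, -, hex⟩ := hH univ F.W isOpen_univ (contDiff_W F).contDiffOn (γ t₀)
    (mem_univ _)
  -- bound for k
  obtain ⟨M, hM⟩ := isCompact_Icc.exists_bound_of_continuousOn hk
  have hM0 : 0 ≤ M := le_trans (norm_nonneg _) (hM t₀ ht₀)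
  -- continuity of γ at t₀
  have hcont : ContinuousOn γ (Icc 0 T) := fun t ht => (hγ t ht).continuousWithinAt
  have h1 := (Metric.continuousOn_iff.1 hcont) t₀ ht₀ r hr
  obtain ⟨δ₁, hδ₁, h1⟩ := h1
  have hMp : 0 < 2 * (M + 1) := by linarith
  refine ⟨min δ₁ (ε / (2 * (M + 1))), lt_min hδ₁ (div_pos hε hMp), ?_⟩
  intro t₁ ht₁ t₂ ht₂ hd₁ hd₂ h12
  have hx : γ t₁ ∈ ball (γ t₀) r := by
    apply h1 t₁ ht₁
    rw [Real.dist_eq]
    exact lt_of_lt_of_le hd₁ (min_le_left _ _)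
  obtain ⟨φ, hφ0, hφ⟩ := hex (γ t₁) hx
  have hlen : t₂ - t₁ < ε / (M + 1) := by
    have e1 := lt_of_lt_of_le hd₁ (min_le_right _ _)
    have e2 := lt_of_lt_of_le hd₂ (min_le_right _ _)
    rw [abs_lt] at e1 e2
    have : ε / (M + 1) = ε / (2 * (M + 1)) + ε / (2 * (M + 1)) := by field_simp; ring
    rw [this]; linarith
  -- shifted objects
  set L : ℝ := t₂ - t₁ with hL
  have hL0 : 0 ≤ L := by linarith
  have hsub : ∀ τ ∈ Icc (0:ℝ) L, t₁ + τ ∈ Icc 0 T := by
    intro τ hτ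
    exact ⟨by linarith [hτ.1, ht₁.1], by linarith [hτ.2, ht₂.2]⟩
  set k' : ℝ → ℂ := fun τ => k (t₁ + τ) with hk'
  have hk'c : ContinuousOn k' (Icc 0 L) := by
    apply hk.comp (by fun_prop) hsub
  -- extension of k' to a continuous function
  set κ : ℝ → ℂ := Set.IccExtend hL0 (fun τ : Icc (0:ℝ) L => k' τ) with hκ
  have hκc : Continuous κ := by
    apply Continuous.Icc_extend'
    exact continuousOn_iff_continuous_domRestrict.1 hk'c
  have hκe : ∀ τ ∈ Icc (0:ℝ) L, κ τ = k' τ := by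
    intro τ hτ
    rw [hκ, Set.IccExtend_of_mem _ _ hτ]
  set K : ℝ → ℂ := fun τ => ∫ u in (0:ℝ)..τ, κ u with hK
  have hKd : ∀ τ : ℝ, HasDerivAt K (κ τ) τ := fun τ =>
    (hκc.integral_hasStrictDerivAt 0 τ).hasDerivAt
  have hKb : ∀ τ ∈ Icc (0:ℝ) L, ‖K τ‖ < ε := by
    intro τ hτ
    have : ‖K τ‖ ≤ M * |τ - 0| := by
      apply intervalIntegral.norm_integral_le_of_norm_le_const
      intro u hu
      rw [uIoc_of_le hτ.1] at hu
      have hu' : u ∈ Icc (0:ℝ) L := ⟨hu.1.le, hu.2.trans hτ.2⟩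
      rw [hκe u hu']
      exact hM _ (hsub u hu')
    have h2 : |τ - 0| = τ := by rw [sub_zero, abs_of_nonneg hτ.1]
    rw [h2] at this
    have h3 : M * τ ≤ M * L := mul_le_mul_of_nonneg_left hτ.2 hM0
    have h4 : M * L ≤ (M + 1) * L := by nlinarith
    have h5 : (M + 1) * L < ε := by
      have hM1 : 0 < M + 1 := by linarith
      calc (M + 1) * L < (M + 1) * (ε / (M + 1)) := by
            apply mul_lt_mul_of_pos_left hlen hM1
        _ = ε := by field_simp
    linarith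
  have key := hU univ F.W isOpen_univ (contDiff_W F).contDiffOn k' (fun τ => φ (K τ))
    (fun τ => γ (t₁ + τ)) L hL0 hk'c ?_ ?_ L ⟨hL0, le_refl _⟩
  · refine ⟨φ, ε, hε, fun t ht => (hφ t ht).2, hφ0, K L, ?_, ?_⟩
    · rw [mem_ball_zero_iff]; exact hKb L ⟨hL0, le_refl _⟩
    · have h6 : φ (K L) = γ (t₁ + L) := key
      rw [h6]; congr 1; rw [hL]; ring
  · intro τ hτ
    refine ⟨mem_univ _, mem_univ _, ?_, ?_⟩
    · have hin : K τ ∈ ball (0:ℂ) ε := by rw [mem_ball_zero_iff]; exact hKb τ hτ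
      have h7 : HasDerivAt φ (F.W (φ (K τ))) (K τ) := (hφ _ hin).2
      have h8 := h7.scomp τ (hKd τ)
      rw [hκe τ hτ] at h8
      exact h8.hasDerivWithinAt
    · have h9 := hγ (t₁ + τ) (hsub τ hτ)
      have h10 : HasDerivWithinAt (fun τ : ℝ => t₁ + τ) 1 (Icc 0 L) τ :=
        ((hasDerivAt_id τ).const_add t₁).hasDerivWithinAt
      have h11 := h9.scomp τ h10 hsub
      rw [one_smul] at h11
      exact h11
  · show φ (K 0) = γ (t₁ + 0)
    have : K 0 = 0 := by simp [hK]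
    rw [this, hφ0, add_zero]

theorem CURVE (hH : S_HODE) (hU : S_UNIQ) : S_CURVE := by
  intro F γ k T hT hk hγ
  choose! δ hδ0 hδ using fun t₀ ht₀ => local_step hH hU F γ k T hT hk hγ t₀ ht₀
  -- Lebesgue number
  obtain ⟨η, hη, hleb⟩ := lebesgue_number_lemma_of_metric (s := Icc (0:ℝ) T)
    (c := fun i : Icc (0:ℝ) T => ball (i : ℝ) (δ i)) isCompact_Icc (fun i => isOpen_ball)
    (fun t ht => mem_iUnion.2 ⟨⟨t, ht⟩, mem_ball_self (hδ0 t ht)⟩)
  obtain ⟨N, hN⟩ := exists_nat_gt (T / η)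
  have hN' : 0 < ((N : ℝ) + 1) := by positivity
  have hstep : T / (N + 1) < η := by
    rw [div_lt_iff₀ hη] at hN
    rw [div_lt_iff₀ hN']
    nlinarith
  have hind : ∀ j : ℕ, j ≤ N + 1 → F.Lf (γ 0) (γ (j * (T / (N + 1)))) := by
    intro j
    induction j with
    | zero => intro _; simp; exact Relation.ReflTransGen.refl
    | succ j ih =>
      intro hj
      refine (ih (by omega)).tail ?_
      have hd0 : 0 ≤ T / (N + 1 : ℝ) := by positivity
      have hm : ∀ i : ℕ, i ≤ N + 1 → (i : ℝ) * (T / (N + 1)) ∈ Icc 0 T := by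
        intro i hi
        constructor
        · positivity
        · have : (i : ℝ) ≤ N + 1 := by exact_mod_cast hi
          calc (i : ℝ) * (T / (N + 1)) ≤ (N + 1) * (T / (N + 1)) :=
                mul_le_mul_of_nonneg_right this hd0
            _ = T := by field_simp
      obtain ⟨i, hi⟩ := hleb _ (hm j (by omega))
      have h1 : (j : ℝ) * (T / (N + 1)) ∈ ball ((j : ℝ) * (T / (N + 1))) η := mem_ball_self hη
      have h2 : ((j + 1 : ℕ) : ℝ) * (T / (N + 1)) ∈ ball ((j : ℝ) * (T / (N + 1))) η := by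
        rw [mem_ball, Real.dist_eq]
        push_cast
        have : ((j : ℝ) + 1) * (T / (N + 1)) - j * (T / (N + 1)) = T / (N + 1) := by ring
        rw [this, abs_of_nonneg hd0]; exact hstep
      have h1' := hi h1
      have h2' := hi h2
      rw [mem_ball, Real.dist_eq] at h1' h2'
      refine hδ i i.2 _ (hm j (by omega)) _ (hm (j + 1) (by omega)) h1' h2' ?_
      push_cast
      nlinarith
  have hfin := hind (N + 1) le_rfl
  have : ((N + 1 : ℕ) : ℝ) * (T / (N + 1)) = T := by push_cast; field_simp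
  rwa [this] at hfin

lemma step_symm (hC : S_CURVE) (F : Fld) (x y : ℂ × ℂ) (h : F.Step x y) : F.Lf y x := by
  obtain ⟨φ, r, hr, hφ, hφ0, t, ht, hφt⟩ := h
  have h1 := hC F (fun τ : ℝ => φ (((1 - τ : ℝ) : ℂ) * t)) (fun _ => -t) 1 zero_le_one
    continuousOn_const ?_
  · simp only [sub_zero, Complex.ofReal_one, one_mul, sub_self, Complex.ofReal_zero, zero_mul] at h1
    rw [hφt, hφ0] at h1
    exact h1
  · intro τ hτ
    have hin : ((1 - τ : ℝ) : ℂ) * t ∈ ball (0:ℂ) r := by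
      rw [mem_ball_zero_iff] at ht ⊢
      rw [norm_mul, Complex.norm_real, Real.norm_eq_abs, abs_of_nonneg (by linarith [hτ.2])]
      have : (1 - τ) * ‖t‖ ≤ 1 * ‖t‖ :=
        mul_le_mul_of_nonneg_right (by linarith [hτ.1]) (norm_nonneg _)
      linarith
    have h2 := hφ _ hin
    have h3 : HasDerivAt (fun τ : ℝ => ((1 - τ : ℝ) : ℂ) * t) (-t) τ := by
      have h4 : HasDerivAt (fun τ : ℝ => ((1 - τ : ℝ) : ℂ)) ((-1 : ℝ) : ℂ) τ := by
        apply HasDerivAt.ofReal_comp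
        simpa using (hasDerivAt_id τ).const_sub 1
      simpa using h4.mul_const t
    exact (h2.scomp τ h3).hasDerivWithinAt

theorem LFSYM (hC : S_CURVE) : S_LFSYM := by
  intro F x y h
  induction h with
  | refl => exact Relation.ReflTransGen.refl
  | tail _ hbc ih => exact (step_symm hC F _ _ hbc).trans ih

/-- F03 -/
theorem F03 (hH : S_HODE) (hU : S_UNIQ) : S_CURVE ∧ S_LFSYM :=
  ⟨CURVE hH hU, LFSYM (CURVE hH hU)⟩

end Pool.GL.H93
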