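import Pool.Agent.Helper93.GL.F03

/-!
Swarm `GL`, part F04: the leaf of a regular point is a translation surface.
-/

set_option autoImplicit false

open Metric Set Filter Topology

namespace Pool.GL.H93

open Pool.GL

/-- chains along a real interval -/
lemma chain_Icc {α : Type*} (R : α → α → Prop) (γ : ℝ → α) (T : ℝ) (hT : 0 ≤ T)
    (h : ∀ t₀ ∈ Icc 0 T, ∃ δ > 0, ∀ t₁ ∈ Icc 0 T, ∀ t₂ ∈ Icc 0 T, |t₁ - t₀| < δ → |t₂ - t₀| < δ →
      t₁ ≤ t₂ → R (γ t₁) (γ t₂)) : Relation.ReflTransGen R (γ 0) (γ T) := by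
  choose! δ hδ0 hδ using h
  obtain ⟨η, hη, hleb⟩ := lebesgue_number_lemma_of_metric (s := Icc (0:ℝ) T)
    (c := fun i : Icc (0:ℝ) T => ball (i : ℝ) (δ i)) isCompact_Icc (fun i => isOpen_ball)
    (fun t ht => mem_iUnion.2 ⟨⟨t, ht⟩, mem_ball_self (hδ0 t ht)⟩)
  obtain ⟨N, hN⟩ := exists_nat_gt (T / η)
  have hN' : 0 < ((N : ℝ) + 1) := by positivity
  have hstep : T / (N + 1) < η := by
    rw [div_lt_iff₀ hη] at hN
    rw [div_lt_iff₀ hN']
    nlinarith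
  have hind : ∀ j : ℕ, j ≤ N + 1 → Relation.ReflTransGen R (γ 0) (γ (j * (T / (N + 1)))) := by
    intro j
    induction j with
    | zero => intro _; simp; exact Relation.ReflTransGen.refl
    | succ j ih =>
      intro hj
      refine (ih (by omega)).tail ?_
      have hd0 : 0 ≤ T / (N + 1 : ℝ) := by positivity
      have hm : ∀ i : ℕ, i ≤ N + 1 → (i : ℝ) * (T / (N + 1)) ∈ Icc 0 T := by
        intro i hi
        constructor
        · positivity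
        · have : (i : ℝ) ≤ N + 1 := by exact_mod_cast hi
          calc (i : ℝ) * (T / (N + 1)) ≤ (N + 1) * (T / (N + 1)) :=
                mul_le_mul_of_nonneg_right this hd0
            _ = T := by field_simp
      obtain ⟨i, hi⟩ := hleb _ (hm j (by omega))
      have h1 : (j : ℝ) * (T / (N + 1)) ∈ ball ((j : ℝ) * (T / (N + 1))) η := mem_ball_self hη
      have h2 : ((j + 1 : ℕ) : ℝ) * (T / (N + 1)) ∈ ball ((j : ℝ) * (T / (N + 1))) η := by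
        rw [mem_ball, Real.dist_eq]
        push_cast
        have : ((j : ℝ) + 1) * (T / (N + 1)) - j * (T / (N + 1)) = T / (N + 1) := by ring
        rw [this, abs_of_nonneg hd0]; exact hstep
      have h1' := hi h1
      have h2' := hi h2
      rw [mem_ball, Real.dist_eq] at h1' h2'
      refine hδ i i.2 _ (hm j (by omega)) _ (hm (j + 1) (by omega)) h1' h2' ?_
      push_cast
      nlinarith
  have hfin := hind (N + 1) le_rfl
  have : ((N + 1 : ℕ) : ℝ) * (T / (N + 1)) = T := by push_cast; field_simp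
  rwa [this] at hfin

/-- uniqueness of integral discs -/
lemma disc_unique (hU : S_UNIQC) (F : Fld) (φ ψ : ℂ → ℂ × ℂ) (r s : ℝ) (hr : 0 < r) (hs : 0 < s)
    (hφ : F.IsInt φ r) (hψ : F.IsInt ψ s) (h0 : φ 0 = ψ 0) (t : ℂ) (htr : ‖t‖ < r)
    (hts : ‖t‖ < s) : φ t = ψ t := by
  refine hU univ F.W isOpen_univ (contDiff_W F).contDiffOn (ball 0 (min r s)) isOpen_ball
    (convex_ball _ _).isPreconnected φ ψ ?_ 0 (mem_ball_self (lt_min hr hs)) h0 t ?_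
  · intro u hu
    rw [mem_ball_zero_iff, lt_min_iff] at hu
    exact ⟨mem_univ _, mem_univ _, hφ u (by rw [mem_ball_zero_iff]; exact hu.1),
      hψ u (by rw [mem_ball_zero_iff]; exact hu.2)⟩
  · rw [mem_ball_zero_iff, lt_min_iff]; exact ⟨htr, hts⟩

/-- on the leaf of a regular point the field does not vanish -/
lemma W_ne_of_Lf (hU : S_UNIQC) (hS : S_LFSYM) (F : Fld) (p q : ℂ × ℂ) (hp : F.W p ≠ 0)
    (h : F.Lf p q) : F.W q ≠ 0 := by
  intro hq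
  have h1 : F.Lf q p := hS F p q h
  have h2 : ∀ y, F.Lf q y → y = q := by
    intro y hy
    induction hy with
    | refl => rfl
    | tail _ hbc ih =>
      rename_i b c
      rw [ih] at hbc
      obtain ⟨φ, r, hr, hφ, hφ0, t, ht, hφt⟩ := hbc
      have hc : F.IsInt (fun _ => q) r := by
        intro u _
        rw [hq]
        exact hasDerivAt_const u q
      rw [mem_ball_zero_iff] at ht
      have := disc_unique hU F φ (fun _ => q) r r hr hr hφ hc hφ0 t ht ht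
      rw [← hφt]; exact this
  have h3 := h2 p h1
  rw [h3] at hp
  exact hp hq

/-- injectivity of discs with almost constant velocity -/
lemma injOn_of_vel (φ : ℂ → ℂ × ℂ) (v : ℂ × ℂ) (f' : ℂ → ℂ × ℂ) (ε : ℝ) (hv : v ≠ 0)
    (hφ : ∀ t ∈ ball (0 : ℂ) ε, HasDerivAt φ (f' t) t)
    (hb : ∀ t ∈ ball (0 : ℂ) ε, ‖f' t - v‖ ≤ ‖v‖ / 2) : InjOn φ (ball (0 : ℂ) ε) := by
  intro s hs t ht hst
  have h1 : ∀ u ∈ ball (0 : ℂ) ε, HasDerivWithinAt (fun u => φ u - u • v) (f' u - v)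
      (ball (0 : ℂ) ε) u := by
    intro u hu
    have h2 : HasDerivAt (fun u : ℂ => u • v) ((1 : ℂ) • v) u := (hasDerivAt_id u).smul_const v
    rw [one_smul] at h2
    exact ((hφ u hu).sub h2).hasDerivWithinAt
  have h3 := (convex_ball (0 : ℂ) ε).norm_image_sub_le_of_norm_hasDerivWithin_le h1 hb hs ht
  have h4 : (φ t - t • v) - (φ s - s • v) = -((t - s) • v) := by
    rw [hst, sub_smul]; abel
  rw [h4, norm_neg, norm_smul] at h3
  have hv0 : 0 < ‖v‖ := norm_pos_iff.2 hv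
  have h5 : ‖t - s‖ = 0 := by
    have h6 := norm_nonneg (t - s)
    by_contra hne
    have h7 : 0 < ‖t - s‖ := lt_of_le_of_ne h6 (Ne.symm hne)
    nlinarith [mul_pos h7 hv0]
  have h8 : t - s = 0 := norm_eq_zero.1 h5
  exact (sub_eq_zero.1 h8).symm

/-- uniform injective discs near a regular point -/
lemma unif_disc (hH : S_HODE) (F : Fld) (x₀ : ℂ × ℂ) (hx₀ : F.W x₀ ≠ 0) :
    ∃ r > 0, ∃ ε > 0, ε ≤ 1 ∧ ∀ x ∈ ball x₀ r, ∃ φ : ℂ → ℂ × ℂ, φ 0 = x ∧ F.IsInt φ ε ∧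
      InjOn φ (ball (0 : ℂ) ε) := by
  have hW0 : 0 < ‖F.W x₀‖ / 2 := by have := norm_pos_iff.2 hx₀; linarith
  have hc : ContinuousAt F.W x₀ := (continuous_W F).continuousAt
  obtain ⟨r₀, hr₀, hr₀'⟩ := Metric.continuousAt_iff.1 hc _ hW0
  obtain ⟨r, hr, ε, hε, -, hex⟩ := hH (ball x₀ r₀) F.W isOpen_ball
    (contDiff_W F).contDiffOn x₀ (mem_ball_self hr₀)
  refine ⟨r, hr, min ε 1, lt_min hε one_pos, min_le_right _ _, ?_⟩
  intro x hx
  obtain ⟨φ, hφ0, hφ⟩ := hex x hx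
  have hsub : ball (0:ℂ) (min ε 1) ⊆ ball 0 ε := ball_subset_ball (min_le_left _ _)
  refine ⟨φ, hφ0, fun t ht => (hφ t (hsub ht)).2, ?_⟩
  refine injOn_of_vel φ (F.W x₀) (fun t => F.W (φ t)) _ hx₀ (fun t ht => (hφ t (hsub ht)).2) ?_
  intro t ht
  have h1 := (hφ t (hsub ht)).1
  have h2 := hr₀' h1
  rw [dist_eq_norm] at h2
  exact h2.le

/-- the admissible radii -/
def RR (F : Fld) (q : ℂ × ℂ) : Set ℝ :=
  {r | 0 < r ∧ r ≤ 1 ∧ ∃ φ : ℂ → ℂ × ℂ, F.IsInt φ r ∧ φ 0 = q ∧ InjOn φ (ball (0 : ℂ) r)}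

noncomputable def rhoF (F : Fld) (q : ℂ × ℂ) : ℝ := sSup (RR F q)

open Classical in
noncomputable def PhiF (F : Fld) (q : ℂ × ℂ) (t : ℂ) : ℂ × ℂ :=
  if h : ∃ φ : ℂ → ℂ × ℂ, ∃ r : ℝ, ‖t‖ < r ∧ r ≤ 1 ∧ F.IsInt φ r ∧ φ 0 = q ∧
      InjOn φ (ball (0 : ℂ) r) then h.choose t else q

lemma RR_bdd (F : Fld) (q : ℂ × ℂ) : BddAbove (RR F q) := ⟨1, fun _ hr => hr.2.1⟩

lemma PhiF_eq (hU : S_UNIQC) (F : Fld) (q : ℂ × ℂ) (φ : ℂ → ℂ × ℂ) (r : ℝ) (hr1 : r ≤ 1)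
    (hφ : F.IsInt φ r) (hφ0 : φ 0 = q) (hinj : InjOn φ (ball (0 : ℂ) r)) (t : ℂ) (ht : ‖t‖ < r) :
    PhiF F q t = φ t := by
  have h : ∃ φ : ℂ → ℂ × ℂ, ∃ r : ℝ, ‖t‖ < r ∧ r ≤ 1 ∧ F.IsInt φ r ∧ φ 0 = q ∧
      InjOn φ (ball (0 : ℂ) r) := ⟨φ, r, ht, hr1, hφ, hφ0, hinj⟩
  have e : PhiF F q t = h.choose t := by
    unfold PhiF
    rw [dif_pos h]
  rw [e]
  obtain ⟨r', ht', hr1', hψ, hψ0, hinj'⟩ := h.choose_spec
  have n0 := norm_nonneg t
  exact disc_unique hU F _ φ r' r (by linarith) (by linarith) hψ hφ (by rw [hψ0, hφ0]) t ht' ht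

lemma PhiF_Lf (F : Fld) (q : ℂ × ℂ) (t : ℂ) : F.Lf q (PhiF F q t) := by
  unfold PhiF
  split_ifs with h
  · obtain ⟨r', ht', hr1', hψ, hψ0, hinj'⟩ := h.choose_spec
    have n0 := norm_nonneg t
    refine Relation.ReflTransGen.single ⟨h.choose, r', by linarith, hψ, hψ0, t, ?_, rfl⟩
    rw [mem_ball_zero_iff]; exact ht'
  · exact Relation.ReflTransGen.refl

lemma PhiF_zero (F : Fld) (q : ℂ × ℂ) : PhiF F q 0 = q := by
  unfold PhiF
  split_ifs with h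
  · obtain ⟨r', ht', hr1', hψ, hψ0, hinj'⟩ := h.choose_spec
    exact hψ0
  · rfl

lemma RR_nonempty (hH : S_HODE) (F : Fld) (q : ℂ × ℂ) (hq : F.W q ≠ 0) : (RR F q).Nonempty := by
  obtain ⟨r, hr, ε, hε, hε1, h⟩ := unif_disc hH F q hq
  obtain ⟨φ, hφ0, hφ, hinj⟩ := h q (mem_ball_self hr)
  exact ⟨ε, hε, hε1, φ, hφ, hφ0, hinj⟩

lemma rhoF_pos (hH : S_HODE) (F : Fld) (q : ℂ × ℂ) (hq : F.W q ≠ 0) : 0 < rhoF F q := by
  obtain ⟨r, hr⟩ := RR_nonempty hH F q hq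
  exact lt_of_lt_of_le hr.1 (le_csSup (RR_bdd F q) hr)

lemma rhoF_le_one (hH : S_HODE) (F : Fld) (q : ℂ × ℂ) (hq : F.W q ≠ 0) : rhoF F q ≤ 1 :=
  csSup_le (RR_nonempty hH F q hq) (fun _ hr => hr.2.1)

lemma PhiF_int (hH : S_HODE) (hU : S_UNIQC) (F : Fld) (q : ℂ × ℂ) (hq : F.W q ≠ 0) :
    F.IsInt (PhiF F q) (rhoF F q) := by
  intro t ht
  rw [mem_ball_zero_iff] at ht
  obtain ⟨r, ⟨hr0, hr1, φ, hφ, hφ0, hinj⟩, hlt⟩ := exists_lt_of_lt_csSup (RR_nonempty hH F q hq) ht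
  have hev : PhiF F q =ᶠ[𝓝 t] φ := by
    have : ball (0:ℂ) r ∈ 𝓝 t := isOpen_ball.mem_nhds (by rw [mem_ball_zero_iff]; exact hlt)
    filter_upwards [this] with u hu
    rw [mem_ball_zero_iff] at hu
    exact PhiF_eq hU F q φ r hr1 hφ hφ0 hinj u hu
  have h1 := hφ t (by rw [mem_ball_zero_iff]; exact hlt)
  have h2 := h1.congr_of_eventuallyEq hev
  rwa [← hev.eq_of_nhds] at h2

lemma PhiF_inj (hH : S_HODE) (hU : S_UNIQC) (F : Fld) (q : ℂ × ℂ) (hq : F.W q ≠ 0) :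
    InjOn (PhiF F q) (ball (0 : ℂ) (rhoF F q)) := by
  intro s hs t ht hst
  rw [mem_ball_zero_iff] at hs ht
  obtain ⟨r, ⟨hr0, hr1, φ, hφ, hφ0, hinj⟩, hlt⟩ :=
    exists_lt_of_lt_csSup (RR_nonempty hH F q hq) (max_lt hs ht)
  rw [max_lt_iff] at hlt
  rw [PhiF_eq hU F q φ r hr1 hφ hφ0 hinj s hlt.1, PhiF_eq hU F q φ r hr1 hφ hφ0 hinj t hlt.2] at hst
  exact hinj (by rw [mem_ball_zero_iff]; exact hlt.1) (by rw [mem_ball_zero_iff]; exact hlt.2) hst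

/-- translated disc -/
lemma shift_disc (hH : S_HODE) (hU : S_UNIQC) (F : Fld) (q : ℂ × ℂ) (hq : F.W q ≠ 0) (t : ℂ) :
    F.IsInt (fun u => PhiF F q (t + u)) (rhoF F q - ‖t‖) ∧
      InjOn (fun u => PhiF F q (t + u)) (ball (0 : ℂ) (rhoF F q - ‖t‖)) := by
  have hin : ∀ u ∈ ball (0:ℂ) (rhoF F q - ‖t‖), t + u ∈ ball (0:ℂ) (rhoF F q) := by
    intro u hu
    rw [mem_ball_zero_iff] at hu ⊢
    have := norm_add_le t u
    linarith
  constructor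
  · intro u hu
    have h1 := PhiF_int hH hU F q hq (t + u) (hin u hu)
    exact h1.comp_const_add t u
  · intro u hu v hv huv
    have := PhiF_inj hH hU F q hq (hin u hu) (hin v hv) huv
    exact add_left_cancel this

lemma le_rhoF (hU : S_UNIQC) (F : Fld) (q : ℂ × ℂ) (φ : ℂ → ℂ × ℂ) (r : ℝ) (hr0 : 0 < r)
    (hr1 : r ≤ 1) (hφ : F.IsInt φ r) (hφ0 : φ 0 = q) (hinj : InjOn φ (ball (0 : ℂ) r)) :
    r ≤ rhoF F q := le_csSup (RR_bdd F q) ⟨hr0, hr1, φ, hφ, hφ0, hinj⟩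

lemma rhoF_lip (hH : S_HODE) (hU : S_UNIQC) (F : Fld) (q : ℂ × ℂ) (hq : F.W q ≠ 0) (t : ℂ)
    (ht : ‖t‖ < rhoF F q) : rhoF F q - ‖t‖ ≤ rhoF F (PhiF F q t) := by
  obtain ⟨h1, h2⟩ := shift_disc hH hU F q hq t
  refine le_rhoF hU F _ _ _ (by linarith) ?_ h1 (by simp) h2
  have := rhoF_le_one hH F q hq
  have := norm_nonneg t
  linarith

lemma PhiF_add (hH : S_HODE) (hU : S_UNIQC) (F : Fld) (q : ℂ × ℂ) (hq : F.W q ≠ 0) (s t : ℂ)
    (hst : ‖s‖ + ‖t‖ < rhoF F q) : PhiF F (PhiF F q s) t = PhiF F q (s + t) := by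
  obtain ⟨h1, h2⟩ := shift_disc hH hU F q hq s
  have hle : rhoF F q - ‖s‖ ≤ 1 := by
    have := rhoF_le_one hH F q hq
    have := norm_nonneg s
    linarith
  exact PhiF_eq hU F (PhiF F q s) (fun u => PhiF F q (s + u)) _ hle h1 (by simp) h2 t
    (by linarith)

/-- basic relation for connectedness -/
def RelF (F : Fld) (x y : ℂ × ℂ) : Prop := ∃ t : ℂ, ‖t‖ < rhoF F x ∧ y = PhiF F x t

lemma step_chain (hH : S_HODE) (hU : S_UNIQC) (F : Fld) (p x y : ℂ × ℂ)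
    (hW : ∀ q, F.Lf p q → F.W q ≠ 0) (hx : F.Lf p x) (h : F.Step x y) :
    Relation.ReflTransGen (RelF F) x y := by
  obtain ⟨φ, r, hr, hφ, hφ0, t, ht, hφt⟩ := h
  rw [mem_ball_zero_iff] at ht
  have key := chain_Icc (RelF F) (fun τ : ℝ => φ ((τ : ℂ) * t)) 1 zero_le_one ?_
  · simp only [Complex.ofReal_zero, zero_mul, Complex.ofReal_one, one_mul, hφ0, hφt] at key
    exact key
  · intro τ₀ hτ₀
    have hin : ∀ τ ∈ Icc (0:ℝ) 1, ‖(τ : ℂ) * t‖ < r := by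
      intro τ hτ
      rw [norm_mul, Complex.norm_real, Real.norm_eq_abs, abs_of_nonneg hτ.1]
      have : τ * ‖t‖ ≤ 1 * ‖t‖ := mul_le_mul_of_nonneg_right hτ.2 (norm_nonneg _)
      linarith
    have hLf : ∀ τ ∈ Icc (0:ℝ) 1, F.Lf p (φ ((τ : ℂ) * t)) := by
      intro τ hτ
      refine hx.tail ⟨φ, r, hr, hφ, hφ0, _, ?_, rfl⟩
      rw [mem_ball_zero_iff]; exact hin τ hτ
    obtain ⟨r', hr', ε, hε, hε1, hdisc⟩ := unif_disc hH F _ (hW _ (hLf τ₀ hτ₀))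
    -- continuity of τ ↦ φ(τ t) at τ₀
    have hc : ContinuousAt (fun τ : ℝ => φ ((τ : ℂ) * t)) τ₀ := by
      have h1 : ContinuousAt φ ((τ₀ : ℂ) * t) :=
        (hφ _ (by rw [mem_ball_zero_iff]; exact hin τ₀ hτ₀)).continuousAt
      have h2 : ContinuousAt (fun τ : ℝ => (τ : ℂ) * t) τ₀ := by fun_prop
      exact ContinuousAt.comp (f := fun τ : ℝ => (τ : ℂ) * t) h1 h2
    obtain ⟨δ₁, hδ₁, hc'⟩ := Metric.continuousAt_iff.1 hc r' hr'
    have ht1 : 0 < 2 * (‖t‖ + 1) := by positivity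
    refine ⟨min δ₁ (ε / (2 * (‖t‖ + 1))), lt_min hδ₁ (div_pos hε ht1), ?_⟩
    intro t₁ ht₁ t₂ ht₂ hd₁ hd₂ h12
    have hx1 : φ ((t₁ : ℂ) * t) ∈ ball (φ ((τ₀ : ℂ) * t)) r' := by
      apply hc'
      rw [Real.dist_eq]
      exact lt_of_lt_of_le hd₁ (min_le_left _ _)
    obtain ⟨ψ, hψ0, hψ, hψinj⟩ := hdisc _ hx1
    -- the time
    have hlen : ‖((t₂ - t₁ : ℝ) : ℂ) * t‖ < ε := by
      have e1 := lt_of_lt_of_le hd₁ (min_le_right _ _)
      have e2 := lt_of_lt_of_le hd₂ (min_le_right _ _)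
      rw [abs_lt] at e1 e2
      rw [norm_mul, Complex.norm_real, Real.norm_eq_abs, abs_of_nonneg (by linarith)]
      have h3 : t₂ - t₁ < ε / (‖t‖ + 1) := by
        have : ε / (‖t‖ + 1) = ε / (2 * (‖t‖ + 1)) + ε / (2 * (‖t‖ + 1)) := by field_simp; ring
        rw [this]; linarith
      have h4 : 0 < ‖t‖ + 1 := by positivity
      calc (t₂ - t₁) * ‖t‖ ≤ (t₂ - t₁) * (‖t‖ + 1) := by
            apply mul_le_mul_of_nonneg_left (by linarith) (by linarith)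
        _ < ε / (‖t‖ + 1) * (‖t‖ + 1) := by
            apply mul_lt_mul_of_pos_right h3 h4
        _ = ε := by field_simp
    -- the translated disc
    set r₁ : ℝ := r - ‖(t₁ : ℂ) * t‖ with hr₁
    have hr₁0 : 0 < r₁ := by have := hin t₁ ht₁; linarith
    have hshift : F.IsInt (fun u => φ ((t₁ : ℂ) * t + u)) r₁ := by
      intro u hu
      rw [mem_ball_zero_iff] at hu
      have h5 : (t₁ : ℂ) * t + u ∈ ball (0:ℂ) r := by
        rw [mem_ball_zero_iff]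
        have := norm_add_le ((t₁ : ℂ) * t) u
        linarith
      exact (hφ _ h5).comp_const_add _ _
    have hlen2 : ‖((t₂ - t₁ : ℝ) : ℂ) * t‖ < r₁ := by
      rw [norm_mul, Complex.norm_real, Real.norm_eq_abs, abs_of_nonneg (by linarith), hr₁,
        norm_mul, Complex.norm_real, Real.norm_eq_abs, abs_of_nonneg ht₁.1]
      have : t₂ * ‖t‖ ≤ 1 * ‖t‖ := mul_le_mul_of_nonneg_right ht₂.2 (norm_nonneg _)
      nlinarith
    have h6 : ψ (((t₂ - t₁ : ℝ) : ℂ) * t) = φ ((t₁ : ℂ) * t + ((t₂ - t₁ : ℝ) : ℂ) * t) :=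
      disc_unique hU F ψ (fun u => φ ((t₁ : ℂ) * t + u)) ε r₁ hε hr₁0 hψ hshift
        (by rw [hψ0]; simp) _ hlen hlen2
    have h7 : (t₁ : ℂ) * t + ((t₂ - t₁ : ℝ) : ℂ) * t = (t₂ : ℂ) * t := by push_cast; ring
    rw [h7] at h6
    have h8 := PhiF_eq hU F _ ψ ε hε1 hψ hψ0 hψinj _ hlen
    refine ⟨((t₂ - t₁ : ℝ) : ℂ) * t, lt_of_lt_of_le hlen ?_, ?_⟩
    · exact le_rhoF hU F _ ψ ε hε hε1 hψ hψ0 hψinj
    · show φ ((t₂ : ℂ) * t) = _
      rw [h8, h6]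

theorem LEAFTS (hH : S_HODE) (hU : S_UNIQC) (hS : S_LFSYM) : S_LEAFTS := by
  intro F p hp
  have hW : ∀ q, F.Lf p q → F.W q ≠ 0 := fun q hq => W_ne_of_Lf hU hS F p q hp hq
  have hW' : ∀ x : {q : ℂ × ℂ // F.Lf p q}, F.W (x : ℂ × ℂ) ≠ 0 := fun x => hW x x.2
  let Ph : {q : ℂ × ℂ // F.Lf p q} → ℂ → {q : ℂ × ℂ // F.Lf p q} :=
    fun x t => ⟨PhiF F x t, x.2.trans (PhiF_Lf F x t)⟩
  let T : TS {q : ℂ × ℂ // F.Lf p q} :=
    { Phi := Ph
      rho := fun x => rhoF F x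
      rho_pos := fun x => rhoF_pos hH F x (hW' x)
      rho_le := fun x => rhoF_le_one hH F x (hW' x)
      Phi_zero := fun x => Subtype.ext (PhiF_zero F x)
      rho_lip := fun x t ht => rhoF_lip hH hU F x (hW' x) t ht
      Phi_add := fun x s t hst => Subtype.ext (PhiF_add hH hU F x (hW' x) s t hst)
      Phi_inj := by
        intro x s t hs ht h
        exact PhiF_inj hH hU F x (hW' x) (by rw [mem_ball_zero_iff]; exact hs)
          (by rw [mem_ball_zero_iff]; exact ht) (congrArg Subtype.val h)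
      conn := by
        intro x y
        have hxy : F.Lf (x : ℂ × ℂ) (y : ℂ × ℂ) := (hS F p x x.2).trans y.2
        -- chain of RelF
        have h1 : ∀ z : ℂ × ℂ, F.Lf (x : ℂ × ℂ) z → Relation.ReflTransGen (RelF F) x z := by
          intro z hz
          induction hz with
          | refl => exact Relation.ReflTransGen.refl
          | tail hab hbc ih =>
            exact ih.trans (step_chain hH hU F p _ _ hW (x.2.trans hab) hbc)
        have h2 : ∀ z : ℂ × ℂ, Relation.ReflTransGen (RelF F) x z → ∃ hz : F.Lf p z,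
            Relation.ReflTransGen (fun x y : {q : ℂ × ℂ // F.Lf p q} =>
              ∃ t : ℂ, ‖t‖ < rhoF F x ∧ y = Ph x t) x ⟨z, hz⟩ := by
          intro z hz
          induction hz with
          | refl => exact ⟨x.2, Relation.ReflTransGen.refl⟩
          | tail _ hbc ih =>
            obtain ⟨hb, hch⟩ := ih
            obtain ⟨t, ht, rfl⟩ := hbc
            exact ⟨hb.trans (PhiF_Lf F _ t), hch.tail ⟨t, ht, rfl⟩⟩
        obtain ⟨hz, h3⟩ := h2 y (h1 y hxy)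
        exact h3 }
  refine ⟨T, ⟨?_, ?_⟩⟩
  · intro x
    exact PhiF_int hH hU F x (hW' x)
  · intro x φ r hr0 hr1 hφ hφ0 hinj
    refine ⟨le_rhoF hU F _ φ r hr0 hr1 hφ hφ0 hinj, ?_⟩
    intro t ht
    rw [mem_ball_zero_iff] at ht
    exact PhiF_eq hU F x φ r hr1 hφ hφ0 hinj t ht

end Pool.GL.H93
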